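import Pool.Agent.TH198.AT.Stmts2

/-!
# The strict Gaussian Poincaré inequality for `tanh`

For `f = tanh (x + σ ·)` and an antiderivative `H` of `f' ^ 2` the inequality of Cauchy and Schwarz
gives `(f b - f a) ^ 2 < (b - a) (H b - H a)` for `a ≠ b`. The expectation over two independent
normal variables is `2 Var f < 2 E (X H(X)) = 2 E H'(X)`, by Stein's identity.
-/

set_option autoImplicit false

open MeasureTheory ProbabilityTheory Set

namespace Pool.TH494.AT

open Pool.TH198.AT

theorem integrable_bdd {F : ℝ → ℝ} (hF : Continuous F) {C : ℝ} (hC : ∀ x, |F x| ≤ C) :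
    Integrable F (gaussianReal 0 1) :=
  Integrable.mono' (integrable_const C) hF.aestronglyMeasurable
    (Filter.Eventually.of_forall fun x => by rw [Real.norm_eq_abs]; exact hC x)

theorem integrable_id_gauss : Integrable (fun y : ℝ => y) (gaussianReal 0 1) :=
  (memLp_id_gaussianReal (μ := 0) (v := 1) 1).integrable (by norm_num)

theorem integrable_id_mul {F : ℝ → ℝ} (hF : Continuous F) {C : ℝ} (hC : ∀ x, |F x| ≤ C) :
    Integrable (fun y => y * F y) (gaussianReal 0 1) := by
  refine Integrable.mono' (g := fun y => |y| * C) (integrable_id_gauss.abs.mul_const C)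
    (continuous_id.mul hF).aestronglyMeasurable ?_
  filter_upwards with y
  rw [Real.norm_eq_abs, abs_mul]
  exact mul_le_mul_of_nonneg_left (hC y) (abs_nonneg y)

theorem E1_eq (F : ℝ → ℝ) : E1 F = ∫ x, F x * gaussianPDFReal 0 1 x := by
  unfold E1
  rw [integral_gaussianReal_eq_integral_smul one_ne_zero]
  refine integral_congr_ae (Filter.Eventually.of_forall fun x => ?_)
  exact mul_comm (gaussianPDFReal 0 1 x) (F x)

theorem pdf_eq (x : ℝ) : gaussianPDFReal 0 1 x = (√(2 * Real.pi))⁻¹ * Real.exp (-(x ^ 2) / 2) := by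
  unfold gaussianPDFReal
  norm_num

theorem hasDerivAt_pdf (x : ℝ) :
    HasDerivAt (gaussianPDFReal 0 1) (-(x * gaussianPDFReal 0 1 x)) x := by
  have h1 : HasDerivAt (fun x : ℝ => (√(2 * Real.pi))⁻¹ * Real.exp (-(x ^ 2) / 2))
      ((√(2 * Real.pi))⁻¹ * (Real.exp (-(x ^ 2) / 2) * (-(2 * x) / 2))) x := by
    refine HasDerivAt.const_mul _ (HasDerivAt.exp ?_)
    have h2 := ((hasDerivAt_pow 2 x).neg).div_const 2
    simpa using h2
  have e : gaussianPDFReal 0 1 = fun x : ℝ => (√(2 * Real.pi))⁻¹ * Real.exp (-(x ^ 2) / 2) :=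
    funext pdf_eq
  rw [e]
  convert h1 using 1
  ring

theorem integrable_pdf_mul {F : ℝ → ℝ} (h : Integrable F (gaussianReal 0 1)) :
    Integrable (fun x => F x * gaussianPDFReal 0 1 x) := by
  rw [gaussianReal_of_var_ne_zero _ one_ne_zero] at h
  have h2 := (integrable_withDensity_iff_integrable_smul' (measurable_gaussianPDF 0 1)
    (Filter.Eventually.of_forall fun x => gaussianPDF_lt_top)).1 h
  refine h2.congr (Filter.Eventually.of_forall fun x => ?_)
  simp only [smul_eq_mul, gaussianPDF]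
  rw [ENNReal.toReal_ofReal (gaussianPDFReal_nonneg 0 1 x), mul_comm]

/-- Stein's identity -/
theorem stein {H H' : ℝ → ℝ} {C : ℝ} (h : ∀ x, HasDerivAt H (H' x) x) (hc : Continuous H')
    (hb : ∀ x, |H x| ≤ C) (hb' : ∀ x, |H' x| ≤ C) : E1 (fun z => z * H z) = E1 H' := by
  have hcH : Continuous H := continuous_iff_continuousAt.2 fun x => (h x).continuousAt
  rw [E1_eq, E1_eq]
  have i1 := integrable_pdf_mul (integrable_id_mul hcH hb)
  have i2 := integrable_pdf_mul (integrable_bdd hc hb')
  have i3 := integrable_pdf_mul (integrable_bdd hcH hb)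
  have key := integral_mul_deriv_eq_deriv_mul_of_integrable (u := H) (u' := H')
    (v := gaussianPDFReal 0 1) (v' := fun x => -(x * gaussianPDFReal 0 1 x))
    (fun x _ => h x) (fun x _ => hasDerivAt_pdf x) (by
      refine i1.neg.congr (Filter.Eventually.of_forall fun x => ?_)
      simp only [Pi.neg_apply, Pi.mul_apply]
      ring) i2 i3
  have e1 : ∫ x, H x * -(x * gaussianPDFReal 0 1 x) = -∫ x, x * H x * gaussianPDFReal 0 1 x := by
    rw [← integral_neg]
    refine integral_congr_ae (Filter.Eventually.of_forall fun x => ?_)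
    simp only
    ring
  rw [e1, neg_inj] at key
  exact key

theorem hasDerivAt_tanh (u : ℝ) : HasDerivAt Real.tanh (1 - Real.tanh u ^ 2) u := by
  have hc : Real.cosh u ≠ 0 := (Real.cosh_pos u).ne'
  have h := (Real.hasDerivAt_sinh u).div (Real.hasDerivAt_cosh u) hc
  have e : Real.tanh = fun u => Real.sinh u / Real.cosh u := funext Real.tanh_eq_sinh_div_cosh
  rw [e]
  refine HasDerivAt.congr_deriv h ?_
  simp only
  field_simp

theorem sech_sq (u : ℝ) : sech u ^ 2 = 1 - Real.tanh u ^ 2 := by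
  have hc : Real.cosh u ≠ 0 := (Real.cosh_pos u).ne'
  unfold sech
  rw [Real.tanh_eq_sinh_div_cosh]
  have := Real.cosh_sq u
  field_simp
  linarith

section

variable (x σ : ℝ)

/-- `f` -/
noncomputable def T (y : ℝ) : ℝ := Real.tanh (x + σ * y)

/-- antiderivative of `f' ^ 2` -/
noncomputable def H (y : ℝ) : ℝ := σ * (T x σ y - T x σ y ^ 3 / 3)

/-- `f' ^ 2` -/
noncomputable def H' (y : ℝ) : ℝ := σ ^ 2 * (1 - T x σ y ^ 2) ^ 2

theorem hasDerivAt_T (y : ℝ) : HasDerivAt (T x σ) (σ * (1 - T x σ y ^ 2)) y := by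
  have h1 : HasDerivAt (fun y => x + σ * y) σ y := by
    simpa using ((hasDerivAt_id y).const_mul σ).const_add x
  have h2 := (hasDerivAt_tanh (x + σ * y)).comp y h1
  rw [mul_comm] at h2
  exact h2

theorem hasDerivAt_H (y : ℝ) : HasDerivAt (H x σ) (H' x σ y) y := by
  have h1 := hasDerivAt_T x σ y
  have h2 := (h1.sub ((h1.pow 3).div_const 3)).const_mul σ
  refine HasDerivAt.congr_deriv h2 ?_
  unfold H'
  push_cast
  ring

theorem continuous_T : Continuous (T x σ) :=
  continuous_iff_continuousAt.2 fun y => (hasDerivAt_T x σ y).continuousAt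

theorem continuous_H : Continuous (H x σ) :=
  continuous_iff_continuousAt.2 fun y => (hasDerivAt_H x σ y).continuousAt

theorem continuous_H' : Continuous (H' x σ) := by
  have := continuous_T x σ
  unfold H'
  fun_prop

theorem abs_T (y : ℝ) : |T x σ y| ≤ 1 :=
  abs_le.2 ⟨(Real.neg_one_lt_tanh _).le, (Real.tanh_lt_one _).le⟩

theorem sq_T (y : ℝ) : T x σ y ^ 2 ≤ 1 := by
  have := abs_T x σ y
  rw [sq_le_one_iff_abs_le_one]
  exact this

theorem abs_H (y : ℝ) : |H x σ y| ≤ 2 * |σ| + σ ^ 2 := by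
  have h1 := abs_T x σ y
  have h2 : |T x σ y ^ 3 / 3| ≤ 1 := by
    rw [abs_div, abs_pow]
    have : |T x σ y| ^ 3 ≤ 1 := pow_le_one₀ (abs_nonneg _) h1
    rw [abs_of_pos (by norm_num : (0 : ℝ) < 3)]
    linarith
  have h3 : |T x σ y - T x σ y ^ 3 / 3| ≤ 2 := (abs_sub _ _).trans (by linarith)
  unfold H
  rw [abs_mul]
  have := mul_le_mul_of_nonneg_left h3 (abs_nonneg σ)
  have h4 := sq_nonneg σ
  linarith

theorem abs_H' (y : ℝ) : |H' x σ y| ≤ 2 * |σ| + σ ^ 2 := by
  have h1 := sq_T x σ y
  have h0 := sq_nonneg (T x σ y)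
  have h2 : (1 - T x σ y ^ 2) ^ 2 ≤ 1 := by nlinarith
  have h3 : 0 ≤ (1 - T x σ y ^ 2) ^ 2 := sq_nonneg _
  unfold H'
  rw [abs_of_nonneg (by positivity)]
  have h4 := mul_le_mul_of_nonneg_left h2 (sq_nonneg σ)
  have h5 := abs_nonneg σ
  linarith

/-- the inequality of Cauchy and Schwarz, strict -/
theorem key_lt (hσ : 0 < σ) {a b : ℝ} (hab : a < b) :
    (T x σ b - T x σ a) ^ 2 < (b - a) * (H x σ b - H x σ a) := by
  set m : ℝ := (T x σ b - T x σ a) / (b - a) with hm
  have hba : 0 < b - a := by linarith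
  have hmT : T x σ b - T x σ a = m * (b - a) := by rw [hm]; field_simp
  set P : ℝ → ℝ := fun s => H x σ s - 2 * m * T x σ s + m ^ 2 * s with hP
  have hPd : ∀ s, HasDerivAt P ((σ * (1 - T x σ s ^ 2) - m) ^ 2) s := by
    intro s
    have h1 := ((hasDerivAt_H x σ s).sub ((hasDerivAt_T x σ s).const_mul (2 * m))).add
      ((hasDerivAt_id s).const_mul (m ^ 2))
    refine HasDerivAt.congr_deriv h1 ?_
    unfold H'
    ring
  have hmono : Monotone P := monotone_of_hasDerivAt_nonneg hPd fun s => sq_nonneg _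
  have hlt : P a < P b := by
    refine lt_of_le_of_ne (hmono hab.le) fun heq => ?_
    have hconst : ∀ s ∈ Ioo a b, T x σ s ^ 2 = 1 - m / σ := by
      intro s hs
      have h1 : ∀ᶠ r in nhds s, P r = P a := by
        filter_upwards [Ioo_mem_nhds hs.1 hs.2] with r hr
        exact le_antisymm ((hmono hr.2.le).trans heq.ge) (hmono hr.1.le)
      have h2 : HasDerivAt P 0 s := (hasDerivAt_const s (P a)).congr_of_eventuallyEq h1
      have h3 := (hPd s).unique h2
      have h4 : σ * (1 - T x σ s ^ 2) - m = 0 := by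
        exact pow_eq_zero_iff (two_ne_zero) |>.1 h3
      field_simp
      linarith
    have hinj : ∀ s r : ℝ, T x σ s = T x σ r → s = r := by
      intro s r h
      have := Real.tanh_injective h
      have h2 : σ * s = σ * r := by linarith
      exact mul_left_cancel₀ hσ.ne' h2
    set s1 := a + (b - a) / 4
    set s2 := a + 2 * (b - a) / 4
    set s3 := a + 3 * (b - a) / 4
    have e1 := hconst s1 ⟨by simp only [s1]; linarith, by simp only [s1]; linarith⟩
    have e2 := hconst s2 ⟨by simp only [s2]; linarith, by simp only [s2]; linarith⟩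
    have e3 := hconst s3 ⟨by simp only [s3]; linarith, by simp only [s3]; linarith⟩
    have n12 : T x σ s1 ≠ T x σ s2 := fun h => by
      have := hinj _ _ h
      simp only [s1, s2] at this
      linarith
    have n23 : T x σ s2 ≠ T x σ s3 := fun h => by
      have := hinj _ _ h
      simp only [s2, s3] at this
      linarith
    have n13 : T x σ s1 ≠ T x σ s3 := fun h => by
      have := hinj _ _ h
      simp only [s1, s3] at this
      linarith
    have a12 : T x σ s1 = -T x σ s2 := by
      rcases sq_eq_sq_iff_eq_or_eq_neg.1 (e1.trans e2.symm) with h | h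
      · exact absurd h n12
      · exact h
    have a23 : T x σ s2 = -T x σ s3 := by
      rcases sq_eq_sq_iff_eq_or_eq_neg.1 (e2.trans e3.symm) with h | h
      · exact absurd h n23
      · exact h
    apply n13
    rw [a12, a23, neg_neg]
  have h5 : H x σ b - H x σ a - 2 * m * (T x σ b - T x σ a) + m ^ 2 * (b - a) > 0 := by
    simp only [hP] at hlt
    linarith
  rw [hmT] at h5 ⊢
  have h6 : H x σ b - H x σ a > m ^ 2 * (b - a) := by linarith
  have h7 := mul_lt_mul_of_pos_left h6 hba
  calc (m * (b - a)) ^ 2 = (b - a) * (m ^ 2 * (b - a)) := by ring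
    _ < _ := h7

theorem key_ne (hσ : 0 < σ) {a b : ℝ} (hab : a ≠ b) :
    (T x σ b - T x σ a) ^ 2 < (b - a) * (H x σ b - H x σ a) := by
  rcases lt_or_gt_of_ne hab with h | h
  · exact key_lt x σ hσ h
  · have := key_lt x σ hσ h
    calc (T x σ b - T x σ a) ^ 2 = (T x σ a - T x σ b) ^ 2 := by ring
      _ < (a - b) * (H x σ a - H x σ b) := this
      _ = _ := by ring

end

theorem E1_lt {F G : ℝ → ℝ} (iF : Integrable F (gaussianReal 0 1)) (iG : Integrable G (gaussianReal 0 1)) {a : ℝ}
    (hle : ∀ b, F b ≤ G b) (hlt : ∀ b, a ≠ b → F b < G b) : E1 F < E1 G := by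
  have h1 : 0 < ∫ b, (G b - F b) ∂(gaussianReal 0 1) := by
    rw [integral_pos_iff_support_of_nonneg (fun b => sub_nonneg.2 (hle b)) (iG.sub iF)]
    have hsub : ({a} : Set ℝ)ᶜ ⊆ Function.support (fun b => G b - F b) := by
      intro b hb
      have : a ≠ b := fun h => hb (by rw [h]; rfl)
      exact (sub_pos.2 (hlt b this)).ne'
    refine lt_of_lt_of_le ?_ (measure_mono hsub)
    have := nullSingletonClass_gaussianReal (μ := 0) (v := 1) one_ne_zero
    rw [prob_compl_eq_one_sub (measurableSet_singleton a), measure_singleton]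
    norm_num
  rw [integral_sub iG iF] at h1
  unfold E1
  linarith

theorem E1_id : E1 (fun y => y) = 0 := by
  unfold E1
  exact integral_id_gaussianReal

theorem E1_add {F G : ℝ → ℝ} (iF : Integrable F (gaussianReal 0 1))
    (iG : Integrable G (gaussianReal 0 1)) : E1 (fun x => F x + G x) = E1 F + E1 G :=
  integral_add iF iG

theorem E1_sub {F G : ℝ → ℝ} (iF : Integrable F (gaussianReal 0 1))
    (iG : Integrable G (gaussianReal 0 1)) : E1 (fun x => F x - G x) = E1 F - E1 G :=
  integral_sub iF iG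

theorem E1_mul (c : ℝ) (F : ℝ → ℝ) : E1 (fun x => c * F x) = c * E1 F :=
  integral_const_mul c F

theorem E1_const (c : ℝ) : E1 (fun _ => c) = c := by
  unfold E1
  rw [integral_const, probReal_univ, one_smul]

theorem integrable_add' {F G : ℝ → ℝ} (iF : Integrable F (gaussianReal 0 1))
    (iG : Integrable G (gaussianReal 0 1)) : Integrable (fun x => F x + G x) (gaussianReal 0 1) :=
  iF.add iG

theorem integrable_sub' {F G : ℝ → ℝ} (iF : Integrable F (gaussianReal 0 1))
    (iG : Integrable G (gaussianReal 0 1)) : Integrable (fun x => F x - G x) (gaussianReal 0 1) :=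
  iF.sub iG

/-- **The strict Gaussian Poincaré inequality for `tanh`.** -/
theorem t_POINS : St_POINS := by
  intro x σ hσ
  have cT := continuous_T x σ
  have cH := continuous_H x σ
  have iT := integrable_bdd cT (abs_T x σ)
  have iT2 : Integrable (fun y => T x σ y ^ 2) (gaussianReal 0 1) :=
    integrable_bdd (by fun_prop) (C := 1) (fun y => by
      rw [abs_of_nonneg (sq_nonneg _)]; exact sq_T x σ y)
  have iH := integrable_bdd cH (abs_H x σ)
  have iyH := integrable_id_mul cH (abs_H x σ)
  have iy := integrable_id_gauss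
  have hstein := stein (hasDerivAt_H x σ) (continuous_H' x σ) (abs_H x σ) (abs_H' x σ)
  have ic : ∀ c : ℝ, Integrable (fun _ : ℝ => c) (gaussianReal 0 1) := fun c => integrable_const c
  have icT : ∀ c : ℝ, Integrable (fun y => c * T x σ y) (gaussianReal 0 1) :=
    fun c => iT.const_mul c
  have icH : ∀ c : ℝ, Integrable (fun y => c * H x σ y) (gaussianReal 0 1) :=
    fun c => iH.const_mul c
  have icy : ∀ c : ℝ, Integrable (fun y : ℝ => c * y) (gaussianReal 0 1) :=
    fun c => iy.const_mul c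
  -- the second expectations
  have fP : ∀ a b : ℝ, (T x σ b - T x σ a) ^ 2 =
      (T x σ b ^ 2 - 2 * T x σ a * T x σ b) + T x σ a ^ 2 := fun a b => by ring
  have iP : ∀ a : ℝ, Integrable (fun b => T x σ b ^ 2 - 2 * T x σ a * T x σ b)
      (gaussianReal 0 1) := fun a => integrable_sub' iT2 (icT _)
  have hP : ∀ a, E1 (fun b => (T x σ b - T x σ a) ^ 2) =
      E1 (fun b => T x σ b ^ 2) - 2 * E1 (T x σ) * T x σ a + T x σ a ^ 2 := by
    intro a
    rw [funext (fP a), E1_add (iP a) (ic _), E1_sub iT2 (icT _), E1_mul, E1_const]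
    ring
  have fQ : ∀ a b : ℝ, (b - a) * (H x σ b - H x σ a) =
      ((b * H x σ b - a * H x σ b) - H x σ a * b) + a * H x σ a := fun a b => by ring
  have iQ1 : ∀ a : ℝ, Integrable (fun b => b * H x σ b - a * H x σ b)
      (gaussianReal 0 1) := fun a => integrable_sub' iyH (icH _)
  have iQ : ∀ a : ℝ, Integrable (fun b => (b * H x σ b - a * H x σ b) - H x σ a * b)
      (gaussianReal 0 1) := fun a => integrable_sub' (iQ1 a) (icy _)
  have hQ : ∀ a, E1 (fun b => (b - a) * (H x σ b - H x σ a)) =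
      E1 (fun b => b * H x σ b) - E1 (H x σ) * a + a * H x σ a := by
    intro a
    rw [funext (fQ a), E1_add (iQ a) (ic _), E1_sub (iQ1 a) (icy _), E1_sub iyH (icH _), E1_mul,
      E1_mul (H x σ a) (fun b => b), E1_const, E1_id]
    ring
  have hPQ : ∀ a, E1 (fun b => T x σ b ^ 2) - 2 * E1 (T x σ) * T x σ a + T x σ a ^ 2 <
      E1 (fun b => b * H x σ b) - E1 (H x σ) * a + a * H x σ a := by
    intro a
    rw [← hP, ← hQ]
    refine E1_lt (a := a) ?_ ?_ ?_ ?_
    · rw [funext (fP a)]
      exact integrable_add' (iP a) (ic _)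
    · rw [funext (fQ a)]
      exact integrable_add' (iQ a) (ic _)
    · intro b
      rcases eq_or_ne a b with h | h
      · rw [h]
        simp
      · exact (key_ne x σ hσ h).le
    · intro b h
      exact key_ne x σ hσ h
  set c1 := E1 (fun b => T x σ b ^ 2) with hc1
  set c2 := E1 (T x σ) with hc2
  set c3 := E1 (fun b => b * H x σ b) with hc3
  set c4 := E1 (H x σ) with hc4
  have jP : Integrable (fun a => c1 - 2 * c2 * T x σ a) (gaussianReal 0 1) :=
    integrable_sub' (ic _) (icT _)
  have jQ : Integrable (fun a => c3 - c4 * a) (gaussianReal 0 1) := integrable_sub' (ic _) (icy _)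
  have hfin : E1 (fun a => c1 - 2 * c2 * T x σ a + T x σ a ^ 2) <
      E1 (fun a => c3 - c4 * a + a * H x σ a) :=
    E1_lt (a := 0) (integrable_add' jP iT2) (integrable_add' jQ iyH)
      (fun b => (hPQ b).le) (fun b _ => hPQ b)
  rw [E1_add jP iT2, E1_sub (ic _) (icT _), E1_mul, E1_const, E1_add jQ iyH,
    E1_sub (ic _) (icy _), E1_mul c4 (fun b => b), E1_const, E1_id, ← hc1, ← hc2, ← hc3,
    hstein] at hfin
  have e1 : E1 (fun y => Real.tanh (x + σ * y) ^ 2) = c1 := rfl
  have e2 : E1 (fun y => Real.tanh (x + σ * y)) = c2 := rfl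
  have e3 : σ ^ 2 * E1 (fun y => sech (x + σ * y) ^ 4) = E1 (H' x σ) := by
    rw [← E1_mul]
    congr 1
    funext y
    change σ ^ 2 * sech (x + σ * y) ^ 4 = σ ^ 2 * (1 - Real.tanh (x + σ * y) ^ 2) ^ 2
    rw [← sech_sq]
    ring
  rw [e1, e2, e3]
  linarith

/-- The Gaussian Poincaré inequality for `tanh`. -/
theorem t_POIN : St_POIN := by
  intro x σ hσ
  rcases hσ.eq_or_lt with h | h
  · subst h
    simp only [zero_mul, add_zero]
    rw [E1_const, E1_const]
    norm_num
  · exact (t_POINS x σ h).le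

end Pool.TH494.AT
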